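import Pool.Agent.W96.CL.Stm
set_option autoImplicit false

open Polynomial Filter Topology

namespace W96CL

namespace Alpha

lemma uu_sq : uu ^ 2 = uu - 1 := by
  have h3 : Real.sqrt 3 * Real.sqrt 3 = 3 := Real.mul_self_sqrt (by norm_num)
  apply Complex.ext
  · simp only [uu, pow_two, Complex.mul_re, Complex.sub_re, Complex.one_re]
    linarith
  · simp only [uu, pow_two, Complex.mul_im, Complex.sub_im, Complex.one_im]
    ring

lemma uu_cube : uu ^ 3 = -1 := by linear_combination (uu + 1) * uu_sq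

lemma om_eq : om = uu - 1 := by
  apply Complex.ext
  · simp only [uu, om, Complex.sub_re, Complex.one_re]; norm_num
  · simp only [uu, om, Complex.sub_im, Complex.one_im]; ring

lemma uu_ne : uu ≠ 0 := by
  intro h
  have := uu_cube
  rw [h] at this
  norm_num at this

lemma om_cube : om ^ 3 = 1 := by
  rw [om_eq]
  linear_combination (uu - 2) * uu_sq

lemma om_ne : om ≠ 0 := by
  intro h
  have := om_cube
  rw [h] at this
  norm_num at this

lemma om_sq : om ^ 2 = -uu := by
  rw [om_eq]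
  linear_combination uu_sq

lemma uu_inv : uu⁻¹ = 1 - uu := by
  apply inv_eq_of_mul_eq_one_right
  linear_combination -uu_sq

lemma wT_uu : wT uu = 0 := by
  unfold wT
  linear_combination uu_sq

lemma wF_mul {a b : ℂ} (h : a * b = om) : wF a * wF b = (1 + a) * (1 + b) := by
  unfold wF
  linear_combination ((1 - uu) ^ 2 - 1) * h + (uu ^ 2 - 2 * uu) * om_eq +
    (uu - 1 - (a + b)) * uu_sq

variable {A : Type} [Ring A] [Algebra ℂ A]

lemma BB_mul (hu : S_unit) (e : ℕ → A) (N : ℕ) (he : TL e N) {a b : ℂ} (hab : a * b = om) :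
    ∀ (M : List ℂ) (i : ℕ), (∀ w ∈ M, w ≠ 0) → i + M.length < N →
      BB e a i M * BB e b i M = (phL a M * phL b M) • (1 : A) := by
  intro M
  induction M with
  | nil => intro i _ _; simp [BB, phL]
  | cons w M ih =>
    intro i hw hi
    rw [List.length_cons] at hi
    have hw0 : w ≠ 0 := hw w (by simp)
    have ih' := ih (i + 1) (fun v hv => hw v (by simp [hv])) (by omega)
    have h1 : XX e i (a * w) * XX e i (b / w) = (wF (a * w) * wF (b / w)) • (1 : A) :=
      hu A e N he i _ _ (by omega) (by rw [← hab]; field_simp)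
    have h2 : XX e i (a / w) * XX e i (b * w) = (wF (a / w) * wF (b * w)) • (1 : A) :=
      hu A e N he i _ _ (by omega) (by rw [← hab]; field_simp)
    have h3 : wF (a * w) * wF (b / w) = (1 + a * w) * (1 + b / w) :=
      wF_mul (by rw [← hab]; field_simp)
    have h4 : wF (a / w) * wF (b * w) = (1 + a / w) * (1 + b * w) :=
      wF_mul (by rw [← hab]; field_simp)
    have e1 : BB e a i (w :: M) * BB e b i (w :: M) =
        XX e i (a / w) * (BB e a (i + 1) M * (XX e i (a * w) * XX e i (b / w)) *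
          BB e b (i + 1) M) * XX e i (b * w) := by
      simp only [BB, mul_assoc]
    rw [e1, h1, mul_smul_comm, mul_one, smul_mul_assoc, ih', smul_smul, mul_smul_comm, mul_one,
      smul_mul_assoc, h2, smul_smul, h3, h4]
    congr 1
    simp only [phL, List.map_cons, List.prod_cons, ph1]
    ring

lemma DD_tau0 (e : ℕ → A) (x z : ℂ) (M : List ℂ) (h : tau x z = 0) :
    DD e x 0 (z :: M) = ph1 x z • BB e x 0 M := by
  simp [DD, h]

lemma ph1_inv {x z : ℂ} (hx : x ≠ 0) (hz : z ≠ 0) : x ^ 2 * ph1 x⁻¹ z = ph1 x z := by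
  unfold ph1
  field_simp
  ring

lemma phL_inv {x : ℂ} (hx : x ≠ 0) : ∀ (L : List ℂ), (∀ z ∈ L, z ≠ 0) →
    x ^ (2 * L.length) * phL x⁻¹ L = phL x L := by
  intro L
  induction L with
  | nil => intro _; simp [phL]
  | cons w M ih =>
    intro hw
    have ih' := ih (fun v hv => hw v (by simp [hv]))
    have h1 := ph1_inv hx (hw w (by simp))
    simp only [phL, List.map_cons, List.prod_cons, List.length_cons] at ih' ⊢
    rw [← h1, ← ih']
    ring

/-- both orders, `z` in front -/
lemma front (hu : S_unit) (hx : S_cross) (e : ℕ → A) (z : ℂ) (M : List ℂ)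
    (he : TL e (M.length + 1)) (hz : z ≠ 0) (hM : ∀ w ∈ M, w ≠ 0) :
    DD e (om * -z⁻¹) 0 (z :: M) * DD e (om ^ 2 * -z⁻¹) 0 (z :: M) =
      (phL (om * -z⁻¹) (z :: M) * phL (om ^ 2 * -z⁻¹) (z :: M)) • (1 : A) ∧
    DD e (om ^ 2 * -z⁻¹) 0 (z :: M) * DD e (om * -z⁻¹) 0 (z :: M) =
      (phL (om * -z⁻¹) (z :: M) * phL (om ^ 2 * -z⁻¹) (z :: M)) • (1 : A) := by
  set y := om ^ 2 * -z⁻¹ with hy
  set y' := om * -z⁻¹ with hy'
  have hL : ∀ w ∈ z :: M, w ≠ 0 := by
    intro w hw
    rcases List.mem_cons.mp hw with h | h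
    · rw [h]; exact hz
    · exact hM w h
  have hy0 : y' ≠ 0 := by
    rw [hy']
    exact mul_ne_zero om_ne (neg_ne_zero.mpr (inv_ne_zero hz))
  have hyz : y * z = uu := by
    rw [hy, om_sq]
    field_simp
  have hyi : y'⁻¹ = uu * z := by
    apply inv_eq_of_mul_eq_one_right
    have : om * uu = -1 := by rw [om_eq]; linear_combination uu_sq
    rw [hy']
    field_simp
    linear_combination -this
  have t1 : tau y z = 0 := by
    unfold tau
    rw [hyz, wT_uu, mul_zero]
  have t2 : tau y'⁻¹ z = 0 := by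
    unfold tau
    have : y'⁻¹ / z = uu := by rw [hyi]; field_simp
    rw [this, wT_uu, zero_mul]
  have hprod : y * y'⁻¹ = om := by
    rw [hyi, om_eq]
    calc y * (uu * z) = y * z * uu := by ring
      _ = _ := by rw [hyz, ← uu_sq]; ring
  have d1 : DD e y 0 (z :: M) = ph1 y z • BB e y 0 M := DD_tau0 e y z M t1
  have d2 : DD e y'⁻¹ 0 (z :: M) = ph1 y'⁻¹ z • BB e y'⁻¹ 0 M := DD_tau0 e _ z M t2
  have c := hx A e (M.length + 1) he y' 0 (z :: M) hL (by simp) hy0
  have b1 := BB_mul hu e (M.length + 1) he hprod M 0 hM (by omega)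
  have b2 := BB_mul hu e (M.length + 1) he (show y'⁻¹ * y = om by rw [mul_comm]; exact hprod)
    M 0 hM (by omega)
  have pi := phL_inv hy0 (z :: M) hL
  constructor
  · rw [← c, d1, d2, smul_mul_assoc, smul_mul_assoc, mul_smul_comm, b2, smul_smul, smul_smul,
      smul_smul, ← pi]
    congr 1
    simp only [phL, List.map_cons, List.prod_cons]
    ring
  · rw [← c, d1, d2, smul_mul_assoc, mul_smul_comm, mul_smul_comm, b1, smul_smul, smul_smul,
      smul_smul, ← pi]
    congr 1
    simp only [phL, List.map_cons, List.prod_cons]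
    ring

/-- one exchange -/
lemma exch (hs : S_swap) (hu : S_unit) (e : ℕ → A) (N : ℕ) (he : TL e N) (P Q : List ℂ)
    (z z' : ℂ) (hz : z ≠ 0) (hz' : z' ≠ 0) (hzz : z ^ 2 + z * z' + z' ^ 2 ≠ 0)
    (hN : P.length + Q.length + 2 ≤ N) (u v κ : ℂ)
    (h : DD e u 0 (P ++ z :: z' :: Q) * DD e v 0 (P ++ z :: z' :: Q) = κ • (1 : A)) :
    DD e u 0 (P ++ z' :: z :: Q) * DD e v 0 (P ++ z' :: z :: Q) = κ • (1 : A) := by
  have s1 := (hs A e N he u 0 P Q z z' hz hz').2 (by omega)
  have s2 := (hs A e N he v 0 P Q z z' hz hz').2 (by omega)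
  set a := uu * z' / z with ha
  have ha0 : a ≠ 0 := by
    rw [ha]
    exact div_ne_zero (mul_ne_zero uu_ne hz') hz
  have hab : a * (om / a) = om := by field_simp
  have h1 := hu A e N he (0 + P.length) a (om / a) (by omega) hab
  rw [wF_mul hab] at h1
  set X := XX e (0 + P.length) a with hX
  set Y := XX e (0 + P.length) (om / a) with hY
  have hc : (1 + a) * (1 + om / a) ≠ 0 := by
    have e1 : (1 + a) * (1 + om / a) = (1 + a) * (a + om) / a := by field_simp
    rw [e1]
    refine div_ne_zero ?_ ha0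
    have e2 : (1 + a) * (a + om) * z ^ 2 = om * (z ^ 2 + z * z' + z' ^ 2) := by
      have : a * z = uu * z' := by rw [ha]; field_simp
      have e3 : (1 + a) * (a + om) * z ^ 2 = (z + a * z) * (a * z + om * z) := by ring
      rw [e3, this, om_eq]
      linear_combination (z * z' + z' ^ 2) * uu_sq
    intro h0
    rw [h0, zero_mul] at e2
    exact (mul_ne_zero om_ne hzz) e2.symm
  have k1 : DD e u 0 (P ++ z' :: z :: Q) * DD e v 0 (P ++ z' :: z :: Q) * X = κ • X := by
    calc DD e u 0 (P ++ z' :: z :: Q) * DD e v 0 (P ++ z' :: z :: Q) * X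
        = DD e u 0 (P ++ z' :: z :: Q) * (DD e v 0 (P ++ z' :: z :: Q) * X) := by
          rw [mul_assoc]
      _ = DD e u 0 (P ++ z' :: z :: Q) * (X * DD e v 0 (P ++ z :: z' :: Q)) := by rw [← s2]
      _ = (DD e u 0 (P ++ z' :: z :: Q) * X) * DD e v 0 (P ++ z :: z' :: Q) := by
          rw [mul_assoc]
      _ = (X * DD e u 0 (P ++ z :: z' :: Q)) * DD e v 0 (P ++ z :: z' :: Q) := by rw [← s1]
      _ = X * (DD e u 0 (P ++ z :: z' :: Q) * DD e v 0 (P ++ z :: z' :: Q)) := by
          rw [mul_assoc]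
      _ = κ • X := by rw [h, mul_smul_comm, mul_one]
  have k2 := congrArg (fun T => T * Y) k1
  simp only [mul_assoc, smul_mul_assoc] at k2
  rw [h1, ← mul_assoc] at k2
  rw [mul_smul_comm, mul_one, smul_comm κ] at k2
  exact smul_right_injective A hc k2

lemma move (hs : S_swap) (hu : S_unit) (e : ℕ → A) (N : ℕ) (he : TL e N) (z : ℂ) (hz : z ≠ 0)
    (Q : List ℂ) (u v κ : ℂ) : ∀ (M P : List ℂ), (∀ w ∈ M, w ≠ 0) →
    (∀ w ∈ M, z ^ 2 + z * w + w ^ 2 ≠ 0) → P.length + M.length + Q.length + 1 ≤ N →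
    DD e u 0 (P ++ z :: (M ++ Q)) * DD e v 0 (P ++ z :: (M ++ Q)) = κ • (1 : A) →
    DD e u 0 (P ++ (M ++ z :: Q)) * DD e v 0 (P ++ (M ++ z :: Q)) = κ • (1 : A) := by
  intro M
  induction M with
  | nil => intro P _ _ _ h; simpa using h
  | cons w M ih =>
    intro P h1 h2 h3 h4
    rw [List.length_cons] at h3
    have h5 := exch hs hu e N he P (M ++ Q) z w hz (h1 w (by simp)) (h2 w (by simp))
      (by rw [List.length_append]; omega) u v κ (by simpa using h4)
    have h6 := ih (P ++ [w]) (fun x hx => h1 x (by simp [hx])) (fun x hx => h2 x (by simp [hx]))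
      (by rw [List.length_append, List.length_singleton]; omega) (by simpa using h5)
    simpa using h6

lemma both (hs : S_swap) (hu : S_unit) (hx : S_cross) (e : ℕ → A) (L : List ℂ)
    (he : TL e L.length) (hL : ∀ z ∈ L, z ≠ 0)
    (hL2 : ∀ z ∈ L, ∀ z' ∈ L, z ^ 2 + z * z' + z' ^ 2 ≠ 0) (z : ℂ) (hzL : z ∈ L) :
    DD e (om * -z⁻¹) 0 L * DD e (om ^ 2 * -z⁻¹) 0 L =
      (phL (om * -z⁻¹) L * phL (om ^ 2 * -z⁻¹) L) • (1 : A) ∧
    DD e (om ^ 2 * -z⁻¹) 0 L * DD e (om * -z⁻¹) 0 L =
      (phL (om * -z⁻¹) L * phL (om ^ 2 * -z⁻¹) L) • (1 : A) := by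
  obtain ⟨M, Q, rfl⟩ := List.append_of_mem hzL
  have hz : z ≠ 0 := hL z hzL
  have hMQ : ∀ w ∈ M ++ Q, w ∈ M ++ z :: Q := by
    intro w hw
    rcases List.mem_append.mp hw with h | h
    · exact List.mem_append.mpr (Or.inl h)
    · exact List.mem_append.mpr (Or.inr (by simp [h]))
  have hM : ∀ w ∈ M, w ∈ M ++ z :: Q := fun w hw => List.mem_append.mpr (Or.inl hw)
  have hlen : (M ++ z :: Q).length = (M ++ Q).length + 1 := by
    simp only [List.length_append, List.length_cons]; omega
  have hph : ∀ x : ℂ, phL x (M ++ z :: Q) = phL x (z :: (M ++ Q)) := by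
    intro x
    unfold phL
    exact ((List.perm_middle).map _).prod_eq
  have hlen2 : (M ++ z :: Q).length = M.length + Q.length + 1 := by
    simp only [List.length_append, List.length_cons]; omega
  have f := front hu hx e z (M ++ Q) (by rw [← hlen]; exact he) hz (fun w hw => hL w (hMQ w hw))
  rw [hph, hph]
  constructor
  · have := move hs hu e _ he z hz Q (om * -z⁻¹) (om ^ 2 * -z⁻¹) _ M []
      (fun w hw => hL w (hM w hw)) (fun w hw => hL2 z hzL w (hM w hw))
      (by rw [hlen2]; simp) (by simpa only [List.nil_append] using f.1)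
    simpa only [List.nil_append] using this
  · have := move hs hu e _ he z hz Q (om ^ 2 * -z⁻¹) (om * -z⁻¹) _ M []
      (fun w hw => hL w (hM w hw)) (fun w hw => hL2 z hzL w (hM w hw))
      (by rw [hlen2]; simp) (by simpa only [List.nil_append] using f.2)
    simpa only [List.nil_append] using this

end Alpha

open Alpha

theorem cl_alpha (hs : S_swap) (hu : S_unit) (hx : S_cross) : S_alpha := by
  intro A _ _ e L he hL hL2 z hzL x hxz
  have hz : z ≠ 0 := hL z hzL
  have hb := both hs hu hx e L he hL hL2 z hzL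
  rcases hxz with rfl | rfl
  · exact hb.1
  · have h1 : om * -z ≠ 0 := mul_ne_zero om_ne (neg_ne_zero.mpr hz)
    have h2 : om ^ 2 * -z ≠ 0 := mul_ne_zero (pow_ne_zero 2 om_ne) (neg_ne_zero.mpr hz)
    have e1 : (om * -z)⁻¹ = om ^ 2 * -z⁻¹ := by
      apply inv_eq_of_mul_eq_one_right
      field_simp
      linear_combination om_cube
    have e2 : (om ^ 2 * -z)⁻¹ = om * -z⁻¹ := by
      apply inv_eq_of_mul_eq_one_right
      field_simp
      linear_combination om_cube
    have c1 := hx A e L.length he (om * -z) 0 L hL (by simp) h1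
    have c2 := hx A e L.length he (om ^ 2 * -z) 0 L hL (by simp) h2
    have p1 := phL_inv h1 L hL
    have p2 := phL_inv h2 L hL
    rw [e1] at c1 p1
    rw [e2] at c2 p2
    rw [← c1, ← c2, smul_mul_assoc, mul_smul_comm, hb.2, smul_smul, smul_smul, ← p1, ← p2]
    congr 1
    ring

end W96CL
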