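import Pool.Agent.W96.CL.Stm
set_option autoImplicit false

open Polynomial Filter Topology

namespace W96CL

namespace Two

/-- perturbed parameters, with distinct moduli `> 1` -/
noncomputable def pert (t : ℝ) : ℕ → List ℂ → List ℂ
  | _, [] => []
  | j, z :: L => (z * (1 + (t : ℂ)) ^ j) :: pert t (j + 1) L

lemma pert_length (t : ℝ) : ∀ (L : List ℂ) (j : ℕ), (pert t j L).length = L.length := by
  intro L
  induction L with
  | nil => intro j; rfl
  | cons z L ih => intro j; simp [pert, ih]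

lemma norm_one_add (t : ℝ) (ht : 0 < t) : ‖(1 + (t : ℂ))‖ = 1 + t := by
  have : (1 + (t : ℂ)) = ((1 + t : ℝ) : ℂ) := by push_cast; ring
  rw [this, Complex.norm_real, Real.norm_of_nonneg (by linarith)]

lemma pert_lt (t : ℝ) (ht : 0 < t) : ∀ (L : List ℂ) (j : ℕ), (∀ z ∈ L, ‖z‖ = 1) →
    (∀ w ∈ pert t j L, (1 + t) ^ j ≤ ‖w‖) ∧ (pert t j L).Pairwise (fun a b => ‖a‖ < ‖b‖) := by
  intro L
  induction L with
  | nil => intro j _; exact ⟨fun w hw => by simp [pert] at hw, List.Pairwise.nil⟩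
  | cons z L ih =>
    intro j h
    obtain ⟨h1, h2⟩ := ih (j + 1) (fun w hw => h w (by simp [hw]))
    have hz : ‖z * (1 + (t : ℂ)) ^ j‖ = (1 + t) ^ j := by
      rw [norm_mul, norm_pow, norm_one_add t ht, h z (by simp), one_mul]
    have hlt : (1 + t) ^ j < (1 + t) ^ (j + 1) :=
      pow_lt_pow_right₀ (by linarith) (by omega)
    refine ⟨?_, ?_⟩
    · intro w hw
      simp only [pert, List.mem_cons] at hw
      rcases hw with rfl | hw
      · exact hz.ge
      · exact hlt.le.trans (h1 w hw)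
    · simp only [pert]
      refine List.Pairwise.cons ?_ h2
      intro w hw
      rw [hz]
      exact hlt.trans_le (h1 w hw)

lemma sq_ne {a b : ℂ} (h : ‖a‖ < ‖b‖) : a ^ 2 + a * b + b ^ 2 ≠ 0 := by
  intro h0
  have h1 : a ^ 3 = b ^ 3 := by linear_combination (a - b) * h0
  have h2 : ‖a‖ ^ 3 = ‖b‖ ^ 3 := by rw [← norm_pow, ← norm_pow, h1]
  have h3 : ‖a‖ ^ 3 < ‖b‖ ^ 3 := pow_lt_pow_left₀ h (norm_nonneg a) (by norm_num)
  linarith

lemma pert_good (t : ℝ) (ht : 0 < t) (L : List ℂ) (hL : ∀ z ∈ L, ‖z‖ = 1) :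
    (∀ w ∈ pert t 1 L, 1 < ‖w‖) ∧ (∀ w ∈ pert t 1 L, w ≠ 0) ∧
    (∀ z ∈ pert t 1 L, ∀ z' ∈ pert t 1 L, z ^ 2 + z * z' + z' ^ 2 ≠ 0) := by
  obtain ⟨h1, h2⟩ := pert_lt t ht L 1 hL
  have h3 : ∀ w ∈ pert t 1 L, 1 < ‖w‖ := by
    intro w hw
    have := h1 w hw
    rw [pow_one] at this
    linarith
  have h4 : ∀ w ∈ pert t 1 L, w ≠ 0 := by
    intro w hw h0
    have := h3 w hw
    rw [h0, norm_zero] at this
    linarith
  refine ⟨h3, h4, ?_⟩
  have h5 : (pert t 1 L).Pairwise (fun a b => a ^ 2 + a * b + b ^ 2 ≠ 0) :=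
    h2.imp (fun h => sq_ne h)
  intro z hz z' hz'
  have : Std.Symm (fun a b : ℂ => a ^ 2 + a * b + b ^ 2 ≠ 0) := ⟨fun a b h => by
    have e : b ^ 2 + b * a + a ^ 2 = a ^ 2 + a * b + b ^ 2 := by ring
    rw [e]; exact h⟩
  exact List.Pairwise.forall_of_forall (R := fun a b : ℂ => a ^ 2 + a * b + b ^ 2 ≠ 0)
    (fun x hx => by
      have e : x ^ 2 + x * x + x ^ 2 = 3 * x ^ 2 := by ring
      rw [e]
      exact mul_ne_zero (by norm_num) (pow_ne_zero 2 (h4 x hx))) h5 hz hz'

/-- the zeros of `phL` -/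
noncomputable def rts (L : List ℂ) : Multiset ℂ :=
  ((L.map (fun z => -z) ++ L.map (fun z => -z⁻¹) : List ℂ) : Multiset ℂ)

noncomputable def gL (L : List ℂ) : ℂ[X] := ((rts L).map (fun r => X - C r)).prod

lemma gL_eval (x : ℂ) : ∀ (L : List ℂ), (∀ z ∈ L, z ≠ 0) → (gL L).eval x = phL x L := by
  intro L
  have e : (gL L).eval x = (L.map (fun z => x + z)).prod * (L.map (fun z => x + z⁻¹)).prod := by
    unfold gL rts
    rw [eval_multiset_prod, Multiset.map_map, Multiset.map_coe, Multiset.prod_coe,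
      List.map_append, List.prod_append, List.map_map, List.map_map]
    congr 2
    · apply List.map_congr_left
      intro z _
      simp
    · apply List.map_congr_left
      intro z _
      simp
  intro h
  rw [e]
  clear e
  induction L with
  | nil => simp [phL]
  | cons z L ih =>
    have hz : z ≠ 0 := h z (by simp)
    have ih' := ih (fun w hw => h w (by simp [hw]))
    simp only [List.map_cons, List.prod_cons, phL] at ih' ⊢
    rw [← ih']
    have e1 : ph1 x z = (x + z) * (x + z⁻¹) := by unfold ph1; field_simp; ring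
    rw [e1]
    ring

lemma gL_natDegree (L : List ℂ) : (gL L).natDegree = 2 * L.length := by
  unfold gL
  rw [natDegree_multiset_prod_X_sub_C_eq_card]
  unfold rts
  rw [Multiset.coe_card, List.length_append, List.length_map, List.length_map]
  ring

lemma gL_ne (L : List ℂ) : gL L ≠ 0 := (monic_multisetProd_X_sub_C _).ne_zero

lemma rts_nodup (L : List ℂ) (h1 : ∀ w ∈ L, 1 < ‖w‖)
    (h2 : L.Pairwise (fun a b => ‖a‖ < ‖b‖)) : (rts L).Nodup := by
  unfold rts
  rw [Multiset.coe_nodup, List.nodup_append]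
  refine ⟨?_, ?_, ?_⟩
  · rw [List.Nodup, List.pairwise_map]
    refine h2.imp ?_
    intro a b h h3
    rw [neg_inj] at h3
    rw [h3] at h
    exact lt_irrefl _ h
  · rw [List.Nodup, List.pairwise_map]
    refine h2.imp ?_
    intro a b h h3
    rw [neg_inj, inv_inj] at h3
    rw [h3] at h
    exact lt_irrefl _ h
  · intro a ha b hb hab
    obtain ⟨z, hz, rfl⟩ := List.mem_map.mp ha
    obtain ⟨w, hw, rfl⟩ := List.mem_map.mp hb
    have h3 : ‖z‖ = ‖w‖⁻¹ := by
      have := congrArg norm hab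
      rw [norm_neg, norm_neg, norm_inv] at this
      exact this
    have h4 := h1 z hz
    have h5 := h1 w hw
    have h6 : ‖w‖⁻¹ < 1 := inv_lt_one_of_one_lt₀ h5
    linarith

lemma gL_dvd (L : List ℂ) (h1 : ∀ w ∈ L, 1 < ‖w‖)
    (h2 : L.Pairwise (fun a b => ‖a‖ < ‖b‖)) (F : ℂ[X])
    (hF : ∀ z ∈ L, F.eval (-z⁻¹) = 0 ∧ F.eval (-z) = 0) : gL L ∣ F := by
  by_cases hF0 : F = 0
  · rw [hF0]; exact dvd_zero _
  · unfold gL
    rw [Multiset.prod_X_sub_C_dvd_iff_le_roots hF0, Multiset.le_iff_subset (rts_nodup L h1 h2)]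
    intro r hr
    rw [mem_roots hF0]
    unfold rts at hr
    rw [Multiset.mem_coe, List.mem_append] at hr
    rcases hr with hr | hr
    · obtain ⟨z, hz, rfl⟩ := List.mem_map.mp hr
      exact (hF z hz).2
    · obtain ⟨z, hz, rfl⟩ := List.mem_map.mp hr
      exact (hF z hz).1

/-! ### the polynomial -/

variable {S : Type} [Fintype S] [DecidableEq S]

lemma comp_deg (P : ℂ[X]) (c : ℂ) : (P.comp (C c * X)).natDegree ≤ P.natDegree := by
  refine natDegree_comp_le.trans ?_
  calc P.natDegree * (C c * X).natDegree ≤ P.natDegree * 1 :=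
        Nat.mul_le_mul_left _ (by
          refine natDegree_C_mul_le c X |>.trans ?_
          exact natDegree_X_le)
    _ = _ := by ring

lemma poly_f (hp : S_poly) (e : ℕ → Matrix S S ℂ) (L : List ℂ) (hL : ∀ z ∈ L, z ≠ 0) (a b : S) :
    ∃ F : ℂ[X], F.natDegree ≤ 4 * L.length ∧ ∀ x : ℂ, F.eval x =
      (DD e (om * x) 0 L * DD e (om ^ 2 * x) 0 L) a b
        - phL (om * x) L * phL (om ^ 2 * x) L * (if a = b then 1 else 0) := by
  choose P hP1 hP2 using fun a b => hp S e 0 L a b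
  refine ⟨∑ c, (P a c).comp (C om * X) * (P c b).comp (C (om ^ 2) * X) -
    (gL L).comp (C om * X) * (gL L).comp (C (om ^ 2) * X) * C (if a = b then 1 else 0), ?_, ?_⟩
  · refine (natDegree_sub_le _ _).trans (max_le ?_ ?_)
    · apply natDegree_sum_le_of_forall_le
      intro c _
      refine natDegree_mul_le.trans ?_
      have h1 := (comp_deg (P a c) om).trans (hP1 a c)
      have h2 := (comp_deg (P c b) (om ^ 2)).trans (hP1 c b)
      omega
    · refine natDegree_mul_le.trans ?_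
      rw [natDegree_C, add_zero]
      refine natDegree_mul_le.trans ?_
      have h1 := comp_deg (gL L) om
      have h2 := comp_deg (gL L) (om ^ 2)
      rw [gL_natDegree] at h1 h2
      omega
  · intro x
    rw [Matrix.mul_apply, eval_sub, eval_finsetSum]
    congr 1
    · apply Finset.sum_congr rfl
      intro c _
      rw [eval_mul, eval_comp, eval_comp, hP2, hP2]
      simp
    · rw [eval_mul, eval_mul, eval_comp, eval_comp, gL_eval _ L hL, gL_eval _ L hL]
      split_ifs <;> simp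

/-! ### limits -/

lemma XX_cont (e : ℕ → Matrix S S ℂ) (i : ℕ) : Continuous (fun y : ℂ => XX e i y) := by
  unfold XX wF wT
  fun_prop

lemma tend_z (t : ℕ → ℝ) (ht : Tendsto t atTop (𝓝 0)) (z : ℂ) (j : ℕ) :
    Tendsto (fun m => z * (1 + (t m : ℂ)) ^ j) atTop (𝓝 z) := by
  have h1 : Tendsto (fun m => (t m : ℂ)) atTop (𝓝 ((0 : ℝ) : ℂ)) :=
    (Complex.continuous_ofReal.tendsto 0).comp ht
  have h2 : Tendsto (fun m => z * (1 + (t m : ℂ)) ^ j) atTop (𝓝 (z * (1 + ((0 : ℝ) : ℂ)) ^ j)) :=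
    ((h1.const_add 1).pow j).const_mul z
  simpa using h2

lemma tend_BB (e : ℕ → Matrix S S ℂ) (x : ℂ) (t : ℕ → ℝ) (ht : Tendsto t atTop (𝓝 0)) :
    ∀ (L : List ℂ) (i j : ℕ), (∀ z ∈ L, z ≠ 0) →
      Tendsto (fun m => BB e x i (pert (t m) j L)) atTop (𝓝 (BB e x i L)) := by
  intro L
  induction L with
  | nil => intro i j _; simp only [pert, BB]; exact tendsto_const_nhds
  | cons z L ih =>
    intro i j h
    have hz : z ≠ 0 := h z (by simp)
    have ih' := ih (i + 1) (j + 1) (fun w hw => h w (by simp [hw]))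
    have h1 := tend_z t ht z j
    have h2 : Tendsto (fun m => x / (z * (1 + (t m : ℂ)) ^ j)) atTop (𝓝 (x / z)) :=
      tendsto_const_nhds.div h1 hz
    have h3 : Tendsto (fun m => x * (z * (1 + (t m : ℂ)) ^ j)) atTop (𝓝 (x * z)) :=
      h1.const_mul x
    simp only [pert, BB]
    exact ((((XX_cont e i).tendsto _).comp h2).mul ih').mul (((XX_cont e i).tendsto _).comp h3)

lemma tend_ph1 (x : ℂ) (t : ℕ → ℝ) (ht : Tendsto t atTop (𝓝 0)) (z : ℂ) (hz : z ≠ 0) (j : ℕ) :
    Tendsto (fun m => ph1 x (z * (1 + (t m : ℂ)) ^ j)) atTop (𝓝 (ph1 x z)) := by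
  have h1 := tend_z t ht z j
  have h2 : Tendsto (fun m => x / (z * (1 + (t m : ℂ)) ^ j)) atTop (𝓝 (x / z)) :=
    tendsto_const_nhds.div h1 hz
  have h3 : Tendsto (fun m => x * (z * (1 + (t m : ℂ)) ^ j)) atTop (𝓝 (x * z)) :=
    h1.const_mul x
  unfold ph1
  exact (h2.const_add 1).mul (h3.const_add 1)

lemma tend_tau (x : ℂ) (t : ℕ → ℝ) (ht : Tendsto t atTop (𝓝 0)) (z : ℂ) (hz : z ≠ 0) (j : ℕ) :
    Tendsto (fun m => tau x (z * (1 + (t m : ℂ)) ^ j)) atTop (𝓝 (tau x z)) := by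
  have h1 := tend_z t ht z j
  have h2 : Tendsto (fun m => x / (z * (1 + (t m : ℂ)) ^ j)) atTop (𝓝 (x / z)) :=
    tendsto_const_nhds.div h1 hz
  have h3 : Tendsto (fun m => x * (z * (1 + (t m : ℂ)) ^ j)) atTop (𝓝 (x * z)) :=
    h1.const_mul x
  have hw : Continuous wT := by unfold wT; fun_prop
  unfold tau
  exact ((hw.tendsto _).comp h2).mul ((hw.tendsto _).comp h3)

lemma tend_DD (e : ℕ → Matrix S S ℂ) (x : ℂ) (t : ℕ → ℝ) (ht : Tendsto t atTop (𝓝 0)) :
    ∀ (L : List ℂ) (i j : ℕ), (∀ z ∈ L, z ≠ 0) →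
      Tendsto (fun m => DD e x i (pert (t m) j L)) atTop (𝓝 (DD e x i L)) := by
  intro L
  induction L with
  | nil => intro i j _; simp only [pert, DD]; exact tendsto_const_nhds
  | cons z L ih =>
    intro i j h
    have hz : z ≠ 0 := h z (by simp)
    have hL : ∀ w ∈ L, w ≠ 0 := fun w hw => h w (by simp [hw])
    have ih' := ih (i + 1) (j + 1) hL
    have hB := tend_BB e x t ht L i (j + 1) hL
    have h1 := tend_ph1 x t ht z hz j
    have h2 := tend_tau x t ht z hz j
    simp only [pert, DD]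
    exact ((h1.sub h2).smul hB).add (h2.smul ih')

lemma tend_phL (x : ℂ) (t : ℕ → ℝ) (ht : Tendsto t atTop (𝓝 0)) :
    ∀ (L : List ℂ) (j : ℕ), (∀ z ∈ L, z ≠ 0) →
      Tendsto (fun m => phL x (pert (t m) j L)) atTop (𝓝 (phL x L)) := by
  intro L
  induction L with
  | nil => intro j _; simp only [pert]; exact tendsto_const_nhds
  | cons z L ih =>
    intro j h
    have ih' := ih (j + 1) (fun w hw => h w (by simp [hw]))
    have h1 := tend_ph1 x t ht z (h z (by simp)) j
    simp only [pert, phL, List.map_cons, List.prod_cons] at ih' ⊢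
    exact h1.mul ih'

end Two

open Two

theorem cl_two (ha : S_alpha) (hp : S_poly) (hd : S_divlim) : S_two := by
  intro S _ _ e L he hL a b
  have hL0 : ∀ z ∈ L, z ≠ 0 := by
    intro z hz h0
    have := hL z hz
    rw [h0, norm_zero] at this
    exact zero_ne_one this
  let t : ℕ → ℝ := fun m => 1 / ((m : ℝ) + 1)
  have ht0 : ∀ m, 0 < t m := fun m => by positivity
  have ht : Tendsto t atTop (𝓝 0) := tendsto_one_div_add_atTop_nhds_zero_nat
  obtain ⟨F, -, hF⟩ := poly_f hp e L hL0 a b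
  choose f hf1 hf2 using fun m => poly_f hp e (pert (t m) 1 L) (pert_good (t m) (ht0 m) L hL).2.1 a b
  have hdiv : gL L ∣ F := by
    refine hd (4 * L.length) f (fun m => gL (pert (t m) 1 L)) F (gL L) ?_ ?_ ?_ ?_ (gL_ne L)
    · intro m
      have := hf1 m
      rwa [pert_length] at this
    · intro m
      obtain ⟨g1, g2, g3⟩ := pert_good (t m) (ht0 m) L hL
      apply gL_dvd _ g1 (pert_lt (t m) (ht0 m) L 1 hL).2
      intro z hz
      have hTL : TL e (pert (t m) 1 L).length := by rw [pert_length]; exact he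
      have k : ∀ x : ℂ, (x = -z⁻¹ ∨ x = -z) → (f m).eval x = 0 := by
        intro x hx
        have := ha _ e _ hTL g2 g3 z hz x hx
        rw [hf2, this, Matrix.smul_apply, Matrix.one_apply, smul_eq_mul, sub_self]
      exact ⟨k _ (Or.inl rfl), k _ (Or.inr rfl)⟩
    · intro x
      rw [hF x]
      have h1 := ((tend_DD e (om * x) t ht L 0 1 hL0).mul (tend_DD e (om ^ 2 * x) t ht L 0 1 hL0))
      have h2 := tendsto_pi_nhds.mp (tendsto_pi_nhds.mp h1 a) b
      have h3 := ((tend_phL (om * x) t ht L 1 hL0).mul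
        (tend_phL (om ^ 2 * x) t ht L 1 hL0)).mul_const (if a = b then (1 : ℂ) else 0)
      exact (h2.sub h3).congr (fun m => (hf2 m x).symm)
    · intro x
      rw [gL_eval x L hL0]
      refine (tend_phL x t ht L 1 hL0).congr (fun m => ?_)
      rw [gL_eval x _ (pert_good (t m) (ht0 m) L hL).2.1]
  obtain ⟨P, hP⟩ := hdiv
  refine ⟨P, fun x => ?_⟩
  rw [← hF x, hP, eval_mul, gL_eval x L hL0]

end W96CL
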